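import Pool.Agent.helper3.XT.Spec

/-!
# Row xt:GEO of MP_51d945_co
-/

set_option autoImplicit false

namespace Pool.Agent.XT

open Finset SimpleGraph

theorem GEO_mem {n : ℕ} (P : Finset (Fin n × Fin n × Fin n)) (y z x : Fin n) :
    x ∈ Phi P y z ↔ ∃ l m, l ≠ m ∧ (y, l, x) ∈ P ∧ (x, m, z) ∈ P := by
  unfold Phi
  rw [Finset.mem_filter]
  exact ⟨fun h => h.2, fun h => ⟨Finset.mem_univ _, h⟩⟩

theorem GEO : GEO_stmt := by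
  classical
  intro n B P hB hC
  have hflag : ∀ x l y, (x, l, y) ∈ P → (x, l) ∈ B ∧ (y, l) ∈ B := fun x l y h =>
    ⟨hC.fx x l y h, hC.fx y l x (hC.sy x l y h)⟩
  have h1 : ∀ x l y m, (x, l, y) ∈ P → (x, m, y) ∈ P → l = m := by
    intro x l y m h h'
    obtain ⟨a1, a2⟩ := hflag _ _ _ h
    obtain ⟨b1, b2⟩ := hflag _ _ _ h'
    rcases hB.c4 x y l m a1 a2 b1 b2 with e | e
    · exact absurd e (hC.ne _ _ _ h)
    · exact e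
  have h2 : ∀ x y z, x ∈ Phi P y z → x ∈ Phi P z y ∧ y ≠ z ∧ x ≠ y ∧ x ≠ z ∧
      (∃ l, (x, l, y) ∈ P) ∧ (∃ l, (x, l, z) ∈ P) := by
    intro x y z h
    obtain ⟨l, m, hlm, h1', h2'⟩ := (GEO_mem P y z x).1 h
    refine ⟨(GEO_mem P z y x).2 ⟨m, l, hlm.symm, hC.sy _ _ _ h2', hC.sy _ _ _ h1'⟩, ?_,
      (hC.ne _ _ _ h1').symm, hC.ne _ _ _ h2', ⟨l, hC.sy _ _ _ h1'⟩, ⟨m, h2'⟩⟩
    intro hyz
    rw [← hyz] at h2'
    exact hlm (h1 _ _ _ _ (hC.sy _ _ _ h1') h2')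
  refine ⟨h1, h2, ?_⟩
  intro x x' y z hxx h h'
  obtain ⟨l, m, hlm, p1, p2⟩ := (GEO_mem P y z x).1 h
  obtain ⟨l', m', hlm', q1, q2⟩ := (GEO_mem P y z x').1 h'
  refine (GEO_mem P x x' y).2 ⟨l, l', ?_, hC.sy _ _ _ p1, q1⟩
  intro e
  subst e
  -- x and x' are on l; x' and z on m'; z and x on m
  have n1 : x ≠ z := (h2 _ _ _ h).2.2.2.1
  have n2 : x' ≠ z := (h2 _ _ _ h').2.2.2.1
  obtain ⟨-, f1⟩ := hflag _ _ _ p1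
  obtain ⟨f2, f3⟩ := hflag _ _ _ p2
  obtain ⟨-, f4⟩ := hflag _ _ _ q1
  obtain ⟨f5, f6⟩ := hflag _ _ _ q2
  have := hB.c6 x x' z l m' m f1 f4 f5 f6 f3 f2 hxx n2 n1
  exact hlm (this.1.trans this.2)

end Pool.Agent.XT
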