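import Pool.Agent.helper3.XT.Spec

/-!
# Row xt:RBC of MP_51d945_co
-/

set_option autoImplicit false

namespace Pool.Agent.XT

open Finset SimpleGraph

open Classical in
/-- the tuples with given ends -/
noncomputable def RBC_f {n : ℕ} (P : Finset (Fin n × Fin n × Fin n)) (e : Fin n × Fin n) :
    Finset ((Fin 3 → Fin n) × (Fin 3 → Fin n)) :=
  (TU P).filter (fun t => t.1 2 = e.1 ∧ t.2 2 = e.2)

theorem RBC_sum {n : ℕ} (P : Finset (Fin n × Fin n × Fin n)) :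
    ((TU P).card : ℝ) = ∑ e : Fin n × Fin n, ((RBC_f P e).card : ℝ) := by
  classical
  have h := Finset.card_eq_sum_card_fiberwise (s := TU P) (t := (Finset.univ : Finset (Fin n × Fin n)))
    (f := fun t => (t.1 2, t.2 2)) (fun _ _ => Finset.mem_coe.2 (Finset.mem_univ _))
  rw [h]
  push_cast
  refine Finset.sum_congr rfl fun e _ => ?_
  congr 2
  unfold RBC_f
  refine Finset.filter_congr fun t _ => ?_
  rw [Prod.ext_iff]

theorem RBC_arith (k A : ℝ) (hk : 0 < k) (hk1 : k ≤ 1) (hA : 0 < A) :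
    ∃ K : ℝ, 1 ≤ K ∧ 1 / (2 * (k ^ 2 / 4)) ≤ K ∧ 4 / (k ^ 2 / 4) ≤ K ∧ 1 / (k ^ 2 / 4) ^ 2 ≤ K ∧
      1152000 / (k ^ 2 / 4) ^ 4 ≤ K ∧ 16 * A / (k ^ 2 / 4) ^ 4 ≤ K := by
  have hb : 0 < k ^ 2 / 4 := by positivity
  set β := k ^ 2 / 4
  have h1 : 0 < 1 / (2 * β) := by positivity
  have h2 : 0 < 4 / β := by positivity
  have h3 : 0 < 1 / β ^ 2 := by positivity
  have h4 : 0 < 1152000 / β ^ 4 := by positivity
  have h5 : 0 < 16 * A / β ^ 4 := by positivity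
  exact ⟨1 + 1 / (2 * β) + 4 / β + 1 / β ^ 2 + 1152000 / β ^ 4 + 16 * A / β ^ 4,
    by linarith, by linarith, by linarith, by linarith, by linarith, by linarith⟩

theorem RBC (hPHC : PHC_stmt) (hTUC : TUC_stmt) (hTUA : TUA_stmt) (hTUB : TUB_stmt)
    (hTUG : TUG_stmt) (hMXF : MXF_stmt) (hARI : ARI_stmt) (hGAD : GAD_stmt) : RBC_stmt := by
  classical
  intro k1 A hk1 hA
  have hk : 0 < min k1 1 := lt_min hk1 one_pos
  obtain ⟨K, hK1, hKa, hKb, hKc, hKd, hKe⟩ := RBC_arith (min k1 1) A hk (min_le_right _ _) hA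
  set k := min k1 1 with hkd
  set β := k ^ 2 / 4 with hβd
  have hβ : 0 < β := by positivity
  refine ⟨K ^ 13, ?_⟩
  intro n D B P hn hD hG8 hCl hdP hdL hP hC
  have hn' : (0 : ℝ) < n := by exact_mod_cast hn
  obtain ⟨hKD, hKn⟩ := hARI K D n hK1 hn hD hC
  have hD1 : 1 ≤ D := hK1.trans hKD
  have hKK : K ≤ K ^ 13 := le_self_pow₀ hK1 (by norm_num)
  have hC' : K * (n : ℝ) ^ 4 ≤ D ^ 13 :=
    le_trans (mul_le_mul_of_nonneg_right hKK (by positivity)) hC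
  obtain ⟨p1, p2⟩ := hPHC n D B P hD hG8 hCl hdP hdL
  set S1 := ∑ e : Fin n × Fin n, ((Phi P e.1 e.2).card : ℝ) with hS1
  -- lower bound for S1
  have hPk : k * n * D ^ 2 ≤ (P.card : ℝ) := by
    refine le_trans ?_ hP
    have : k ≤ k1 := min_le_left _ _
    gcongr
  have hS1lo : 2 * β * n * D ^ 4 ≤ S1 := by
    have h1 : (k * n * D ^ 2) ^ 2 ≤ (P.card : ℝ) ^ 2 := by
      refine pow_le_pow_left₀ (by positivity) hPk 2
    have h2 : (k * n * D ^ 2) ^ 2 ≤ n * (S1 + n * D ^ 3) := h1.trans p1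
    have h3 : (k * n * D ^ 2) ^ 2 = n * (4 * β * n * D ^ 4) := by
      rw [hβd]; ring
    rw [h3] at h2
    have h4 : 4 * β * n * D ^ 4 ≤ S1 + n * D ^ 3 := le_of_mul_le_mul_left h2 hn'
    have h5 : n * D ^ 3 ≤ 2 * β * n * D ^ 4 := by
      have : 1 ≤ 2 * β * D := by
        have h6 : 1 / (2 * β) ≤ D := hKa.trans hKD
        rw [div_le_iff₀ (by positivity)] at h6
        linarith
      calc (n : ℝ) * D ^ 3 = n * D ^ 3 * 1 := by ring
        _ ≤ n * D ^ 3 * (2 * β * D) := by gcongr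
        _ = 2 * β * n * D ^ 4 := by ring
    linarith
  have hS1hi : S1 ≤ n * D ^ 4 := p2
  -- h
  set h := β * D ^ 4 / n with hh
  have hh4 : 4 ≤ h := by
    rw [hh, le_div_iff₀ hn']
    have h1 : 4 / β * n ≤ D ^ 4 := (mul_le_mul_of_nonneg_right hKb hn'.le).trans hKn
    rw [div_mul_eq_mul_div, div_le_iff₀ hβ] at h1
    linarith
  have hT := hTUC n B P h S1 hn hG8 hCl (by linarith) hS1
  have hTU : β ^ 4 * D ^ 16 / (4 * n ^ 2) ≤ ((TU P).card : ℝ) := by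
    refine le_trans ?_ hT
    have e1 : β ^ 2 * D ^ 8 ≤ S1 ^ 2 / n ^ 2 - S1 - 2 * n ^ 2 * h ^ 2 := by
      have a1 : (2 * β * n * D ^ 4) ^ 2 / n ^ 2 ≤ S1 ^ 2 / n ^ 2 := by gcongr
      have a2 : (2 * β * n * D ^ 4) ^ 2 / (n : ℝ) ^ 2 = 4 * β ^ 2 * D ^ 8 := by
        field_simp
        ring
      have a3 : 2 * (n : ℝ) ^ 2 * h ^ 2 = 2 * β ^ 2 * D ^ 8 := by
        rw [hh]
        field_simp
      have a4 : (n : ℝ) * D ^ 4 ≤ β ^ 2 * D ^ 8 := by
        have h1 : 1 / β ^ 2 * n ≤ D ^ 4 := (mul_le_mul_of_nonneg_right hKc hn'.le).trans hKn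
        rw [div_mul_eq_mul_div, div_le_iff₀ (by positivity)] at h1
        have h2 : (n : ℝ) ≤ β ^ 2 * D ^ 4 := by linarith
        calc (n : ℝ) * D ^ 4 ≤ (β ^ 2 * D ^ 4) * D ^ 4 := by gcongr
          _ = β ^ 2 * D ^ 8 := by ring
      rw [a2] at a1
      rw [a3]
      linarith
    have e2 : (h / 2) ^ 2 ≤ (h - 2) ^ 2 := by
      refine pow_le_pow_left₀ (by linarith) (by linarith) 2
    calc β ^ 4 * D ^ 16 / (4 * n ^ 2) = (β ^ 2 * D ^ 8) * (h / 2) ^ 2 := by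
          rw [hh]
          field_simp
          ring
      _ ≤ (S1 ^ 2 / n ^ 2 - S1 - 2 * n ^ 2 * h ^ 2) * (h - 2) ^ 2 := by
          refine mul_le_mul e1 e2 (by positivity) (le_trans (by positivity) e1)
  -- non robust pairs
  have hnon : ∀ e : Fin n × Fin n, e ∉ RobS B → ((RBC_f P e).card : ℝ) ≤ 144000 * D ^ 3 := by
    intro e he
    have he' : ¬ Rob B e.1 e.2 := by
      intro hr
      exact he (Finset.mem_filter.2 ⟨Finset.mem_univ _, hr⟩)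
    obtain ⟨F, hF, hFd⟩ := (hMXF n B e.1 e.2).1 he'
    set Q : VV n → Finset ((Fin 3 → Fin n) × (Fin 3 → Fin n)) := fun v =>
      (RBC_f P e).filter (fun t => ∃ s : P8 → Fin n, IsG B t.2 t.1 s ∧ v ∈ inn t.2 t.1 s) with hQ
    have hsub : RBC_f P e ⊆ F.biUnion Q := by
      intro t ht
      have ht' := Finset.mem_filter.1 ht
      obtain ⟨-, -, s, hs, -⟩ := hTUG n B P hG8 hCl t ht'.1
      have hgad : Gad B e.1 e.2 (inn t.2 t.1 s) := ⟨t.2, t.1, s, hs, ht'.2.2, ht'.2.1, rfl⟩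
      have := hFd _ hgad
      rw [Finset.not_disjoint_iff] at this
      obtain ⟨v, hv, hvF⟩ := this
      exact Finset.mem_biUnion.2 ⟨v, hvF, Finset.mem_filter.2 ⟨ht, s, hs, hv⟩⟩
    have hcard : ((RBC_f P e).card : ℝ) ≤ ∑ v ∈ F, ((Q v).card : ℝ) := by
      have h1 := (Finset.card_le_card hsub).trans Finset.card_biUnion_le
      exact_mod_cast h1
    have hQc : ∀ v ∈ F, ((Q v).card : ℝ) ≤ 24 * D ^ 3 := by
      intro v _
      refine hTUB n D B P hD1 hG8 hCl hdP hdL e.1 e.2 v (Q v) ?_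
      intro t ht
      have h1 := Finset.mem_filter.1 ht
      have h2 := Finset.mem_filter.1 h1.1
      exact ⟨h2.1, h2.2.1, h2.2.2, h1.2⟩
    have hF' : (F.card : ℝ) ≤ 6000 := by exact_mod_cast hF
    calc ((RBC_f P e).card : ℝ) ≤ ∑ v ∈ F, ((Q v).card : ℝ) := hcard
      _ ≤ ∑ v ∈ F, 24 * D ^ 3 := Finset.sum_le_sum hQc
      _ = F.card * (24 * D ^ 3) := by rw [Finset.sum_const, nsmul_eq_mul]
      _ ≤ 6000 * (24 * D ^ 3) := by gcongr
      _ = 144000 * D ^ 3 := by ring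
  have hrob : ∀ e : Fin n × Fin n, ((RBC_f P e).card : ℝ) ≤ 2 * D ^ 4 := by
    intro e
    have := hTUA n D B P hD1 hG8 hCl hdP hdL e.1 e.2
    exact this
  have hsum : ((TU P).card : ℝ) ≤ ((RobS B).card : ℝ) * (2 * D ^ 4) + n ^ 2 * (144000 * D ^ 3) := by
    rw [RBC_sum, ← Finset.sum_add_sum_compl (RobS B)]
    refine add_le_add ?_ ?_
    · calc ∑ e ∈ RobS B, ((RBC_f P e).card : ℝ) ≤ ∑ e ∈ RobS B, 2 * D ^ 4 :=
            Finset.sum_le_sum fun e _ => hrob e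
        _ = _ := by rw [Finset.sum_const, nsmul_eq_mul]
    · calc ∑ e ∈ (RobS B)ᶜ, ((RBC_f P e).card : ℝ) ≤ ∑ e ∈ (RobS B)ᶜ, 144000 * D ^ 3 :=
            Finset.sum_le_sum fun e he => hnon e (Finset.mem_compl.1 he)
        _ = ((RobS B)ᶜ.card : ℝ) * (144000 * D ^ 3) := by rw [Finset.sum_const, nsmul_eq_mul]
        _ ≤ n ^ 2 * (144000 * D ^ 3) := by
            have h1 : ((RobS B)ᶜ).card ≤ n ^ 2 := by
              refine (Finset.card_le_univ _).trans ?_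
              rw [Fintype.card_prod, Fintype.card_fin, pow_two]
            have h2 : (((RobS B)ᶜ).card : ℝ) ≤ (n : ℝ) ^ 2 := by exact_mod_cast h1
            gcongr
  -- final arithmetic
  have hb4 : 0 < β ^ 4 := by positivity
  have f1 : n ^ 2 * (144000 * D ^ 3) ≤ β ^ 4 * D ^ 16 / (8 * n ^ 2) := by
    rw [le_div_iff₀ (by positivity)]
    have h1 : 1152000 / β ^ 4 * (n : ℝ) ^ 4 ≤ D ^ 13 :=
      (mul_le_mul_of_nonneg_right hKd (by positivity)).trans hC'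
    rw [div_mul_eq_mul_div, div_le_iff₀ hb4] at h1
    calc (n : ℝ) ^ 2 * (144000 * D ^ 3) * (8 * n ^ 2) = (1152000 * n ^ 4) * D ^ 3 := by ring
      _ ≤ (D ^ 13 * β ^ 4) * D ^ 3 := by gcongr
      _ = β ^ 4 * D ^ 16 := by ring
  have f2 : β ^ 4 * D ^ 16 / (8 * n ^ 2) ≤ ((RobS B).card : ℝ) * (2 * D ^ 4) := by
    have e1 : β ^ 4 * D ^ 16 / (4 * (n : ℝ) ^ 2) = 2 * (β ^ 4 * D ^ 16 / (8 * n ^ 2)) := by
      field_simp
      ring
    rw [e1] at hTU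
    linarith
  have f3 : A * n ^ 2 * (16 * n ^ 2) ≤ β ^ 4 * D ^ 13 := by
    have h1 : 16 * A / β ^ 4 * (n : ℝ) ^ 4 ≤ D ^ 13 :=
      (mul_le_mul_of_nonneg_right hKe (by positivity)).trans hC'
    rw [div_mul_eq_mul_div, div_le_iff₀ hb4] at h1
    calc A * n ^ 2 * (16 * (n : ℝ) ^ 2) = 16 * A * n ^ 4 := by ring
      _ ≤ D ^ 13 * β ^ 4 := h1
      _ = _ := by ring
  rw [div_le_iff₀ (by positivity)] at f2
  have f4 : β ^ 4 * D ^ 13 * D ^ 3 ≤ (D * ((RobS B).card : ℝ)) * (16 * n ^ 2) * D ^ 3 := by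
    calc β ^ 4 * D ^ 13 * D ^ 3 = β ^ 4 * D ^ 16 := by ring
      _ ≤ _ := f2
      _ = _ := by ring
  have f5 : β ^ 4 * D ^ 13 ≤ (D * ((RobS B).card : ℝ)) * (16 * n ^ 2) :=
    le_of_mul_le_mul_right f4 (by positivity)
  exact le_of_mul_le_mul_right (f3.trans f5) (by positivity)

end Pool.Agent.XT
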