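import Pool.Agent.helper3.XT.Spec

/-!
# Row xt:TUA of MP_51d945_co
-/

set_option autoImplicit false

namespace Pool.Agent.XT

open Finset SimpleGraph

/-- the points which are on a common line with `b` -/
def TUA_N {n : ℕ} (B : FS n) (b : Fin n) : Finset (Fin n) := (dP B b).biUnion (dL B)

theorem TUA_N_card {n : ℕ} (B : FS n) (D : ℝ) (hD : 1 ≤ D) (hP : ∀ p, ((dP B p).card : ℝ) ≤ D)
    (hL : ∀ l, ((dL B l).card : ℝ) ≤ D) (b : Fin n) : ((TUA_N B b).card : ℝ) ≤ D ^ 2 := by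
  have h1 : ((TUA_N B b).card : ℝ) ≤ ∑ l ∈ dP B b, ((dL B l).card : ℝ) := by
    have := Finset.card_biUnion_le (s := dP B b) (t := dL B)
    exact_mod_cast this
  calc ((TUA_N B b).card : ℝ) ≤ ∑ l ∈ dP B b, ((dL B l).card : ℝ) := h1
    _ ≤ ∑ l ∈ dP B b, D := Finset.sum_le_sum fun l _ => hL l
    _ = (dP B b).card * D := by rw [Finset.sum_const, nsmul_eq_mul]
    _ ≤ D * D := by
        have := hP b
        gcongr
    _ = D ^ 2 := by ring

theorem TUA_mem_N {n : ℕ} {B : FS n} {b x l : Fin n} (h : (b, l) ∈ B) (h' : (x, l) ∈ B) :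
    x ∈ TUA_N B b := by
  unfold TUA_N
  rw [Finset.mem_biUnion]
  exact ⟨l, Finset.mem_filter.2 ⟨Finset.mem_univ _, h⟩, Finset.mem_filter.2 ⟨Finset.mem_univ _, h'⟩⟩

theorem TUA_offDiag {n : ℕ} (Z : Finset (Fin n)) (h : Z.card ≤ 2) : Z.offDiag.card ≤ 2 := by
  rw [Finset.offDiag_card]
  interval_cases Z.card <;> simp

theorem TUA_fib1 (hCTR : CTR_stmt) (hTUG : TUG_stmt) (n : ℕ) (B : FS n)
    (P : Finset (Fin n × Fin n × Fin n)) (hB : G8 B) (hC : Cl B P) (a b : Fin n)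
    (Q : Finset ((Fin 3 → Fin n) × (Fin 3 → Fin n)))
    (hQ : ∀ t ∈ Q, t ∈ TU P ∧ t.1 2 = a ∧ t.2 2 = b) (R : Finset (Fin n × Fin n))
    (hR : ∀ t ∈ Q, (t.1 0, t.1 1) ∈ R) : Q.card ≤ 2 * R.card := by
  classical
  refine Finset.card_le_mul_card_image_of_maps_to (f := fun t => (t.1 0, t.1 1)) hR 2 ?_
  intro r _
  rcases Finset.eq_empty_or_nonempty (Q.filter (fun t => (t.1 0, t.1 1) = r)) with h | ⟨t0, ht0⟩
  · rw [h]; simp
  obtain ⟨ht0Q, ht0r⟩ := Finset.mem_filter.1 ht0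
  have hinj : Function.Injective t0.1 := (Finset.mem_filter.1 (hQ t0 ht0Q).1).2.1
  set Z : Finset (Fin n) := Finset.univ.filter
    (fun y => ∀ i j, i ≠ j → y ∈ Phi P (t0.1 i) (t0.1 j)) with hZ
  have hZ2 : Z.card ≤ 2 := hCTR n B P hB hC t0.1 Z hinj fun y hy => (Finset.mem_filter.1 hy).2
  have key : ∀ t ∈ Q.filter (fun t => (t.1 0, t.1 1) = r), t.1 = t0.1 := by
    intro t ht
    obtain ⟨htQ, htr⟩ := Finset.mem_filter.1 ht
    have e := htr.trans ht0r.symm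
    funext i
    fin_cases i
    · exact (Prod.ext_iff.1 e).1
    · exact (Prod.ext_iff.1 e).2
    · exact (hQ t htQ).2.1.trans (hQ t0 ht0Q).2.1.symm
  refine le_trans ?_ (TUA_offDiag Z hZ2)
  refine Finset.card_le_card_of_injOn (fun t => (t.2 0, t.2 1)) ?_ ?_
  · intro t ht
    have htQ := (Finset.mem_filter.1 ht).1
    have hx := key t ht
    have hTU := (hQ t htQ).1
    obtain ⟨g1, -, -⟩ := hTUG n B P hB hC t hTU
    have hinj2 : Function.Injective t.2 := (Finset.mem_filter.1 hTU).2.2.1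
    have hmem : ∀ i : Fin 3, i ≠ 2 → t.2 i ∈ Z := by
      intro i hi
      refine Finset.mem_filter.2 ⟨Finset.mem_univ _, ?_⟩
      intro j k hjk
      rw [← hx]
      exact g1 i j k hjk (fun h => hi (Prod.ext_iff.1 h).1) (fun h => hi (Prod.ext_iff.1 h).1)
    rw [Finset.mem_coe, Finset.mem_offDiag]
    exact ⟨hmem 0 (by decide), hmem 1 (by decide), fun h => absurd (hinj2 h) (by decide)⟩
  · intro t ht t' ht' h
    have hx := key t ht
    have hx' := key t' ht'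
    have htQ := (Finset.mem_filter.1 ht).1
    have htQ' := (Finset.mem_filter.1 ht').1
    have h' := Prod.ext_iff.1 h
    refine Prod.ext (hx.trans hx'.symm) ?_
    funext i
    fin_cases i
    · exact h'.1
    · exact h'.2
    · exact (hQ t htQ).2.2.trans (hQ t' htQ').2.2.symm

theorem TUA (hGEO : GEO_stmt) (hCTR : CTR_stmt) (hTUG : TUG_stmt) : TUA_stmt := by
  classical
  intro n D B P hD hB hC hP hL a b
  obtain ⟨-, g2, -⟩ := hGEO n B P hB hC
  have hflag : ∀ x l y, (x, l, y) ∈ P → (x, l) ∈ B ∧ (y, l) ∈ B := fun x l y h =>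
    ⟨hC.fx x l y h, hC.fx y l x (hC.sy x l y h)⟩
  have hNb := TUA_N_card B D hD hP hL b
  have h1 : ((TU P).filter (fun t => t.1 2 = a ∧ t.2 2 = b)).card ≤
      2 * (TUA_N B b ×ˢ TUA_N B b).card := by
    refine TUA_fib1 hCTR hTUG n B P hB hC a b _ (fun t ht => Finset.mem_filter.1 ht) _ ?_
    intro t ht
    obtain ⟨h1, -, h3⟩ := Finset.mem_filter.1 ht
    obtain ⟨-, -, -, -, ⟨l, hl⟩, ⟨m, hm⟩⟩ := g2 _ _ _ ((Finset.mem_filter.1 h1).2.2.2.2 2)
    rw [h3] at hl hm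
    exact Finset.mem_product.2 ⟨TUA_mem_N (hflag _ _ _ hl).1 (hflag _ _ _ hl).2,
      TUA_mem_N (hflag _ _ _ hm).1 (hflag _ _ _ hm).2⟩
  rw [Finset.card_product] at h1
  have h2 : (((TU P).filter (fun t => t.1 2 = a ∧ t.2 2 = b)).card : ℝ) ≤
      2 * (((TUA_N B b).card : ℝ) * ((TUA_N B b).card : ℝ)) := by exact_mod_cast h1
  have h3 : ((TUA_N B b).card : ℝ) * ((TUA_N B b).card : ℝ) ≤ D ^ 2 * D ^ 2 := by
    have : (0 : ℝ) ≤ D ^ 2 := by positivity
    exact mul_le_mul hNb hNb (Nat.cast_nonneg _) this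
  calc (((TU P).filter (fun t => t.1 2 = a ∧ t.2 2 = b)).card : ℝ)
      ≤ 2 * (((TUA_N B b).card : ℝ) * ((TUA_N B b).card : ℝ)) := h2
    _ ≤ 2 * (D ^ 2 * D ^ 2) := by linarith
    _ = 2 * D ^ 4 := by ring

end Pool.Agent.XT
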