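import Pool.Agent.helper3.XT.Spec

/-!
# Row xt:TUB of MP_51d945_co
-/

set_option autoImplicit false

namespace Pool.Agent.XT

open Finset SimpleGraph

/-- the points which are on a common line with `b` -/
def TUB_N {n : ℕ} (B : FS n) (b : Fin n) : Finset (Fin n) := (dP B b).biUnion (dL B)

/-- the points attached to a vertex -/
def TUB_pts {n : ℕ} (B : FS n) : VV n → Finset (Fin n)
  | Sum.inl z => {z}
  | Sum.inr l => dL B l

theorem TUB_N_card {n : ℕ} (B : FS n) (D : ℝ) (hD : 1 ≤ D) (hP : ∀ p, ((dP B p).card : ℝ) ≤ D)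
    (hL : ∀ l, ((dL B l).card : ℝ) ≤ D) (b : Fin n) : ((TUB_N B b).card : ℝ) ≤ D ^ 2 := by
  have h1 : ((TUB_N B b).card : ℝ) ≤ ∑ l ∈ dP B b, ((dL B l).card : ℝ) := by
    have := Finset.card_biUnion_le (s := dP B b) (t := dL B)
    exact_mod_cast this
  calc ((TUB_N B b).card : ℝ) ≤ ∑ l ∈ dP B b, ((dL B l).card : ℝ) := h1
    _ ≤ ∑ l ∈ dP B b, D := Finset.sum_le_sum fun l _ => hL l
    _ = (dP B b).card * D := by rw [Finset.sum_const, nsmul_eq_mul]
    _ ≤ D * D := by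
        have := hP b
        gcongr
    _ = D ^ 2 := by ring

theorem TUB_pts_card {n : ℕ} (B : FS n) (D : ℝ) (hD : 1 ≤ D)
    (hL : ∀ l, ((dL B l).card : ℝ) ≤ D) (v : VV n) : ((TUB_pts B v).card : ℝ) ≤ D := by
  cases v with
  | inl z => simpa [TUB_pts] using hD
  | inr l => exact hL l

theorem TUB_mem_N {n : ℕ} {B : FS n} {b x l : Fin n} (h : (b, l) ∈ B) (h' : (x, l) ∈ B) :
    x ∈ TUB_N B b := by
  unfold TUB_N
  rw [Finset.mem_biUnion]
  exact ⟨l, Finset.mem_filter.2 ⟨Finset.mem_univ _, h⟩, Finset.mem_filter.2 ⟨Finset.mem_univ _, h'⟩⟩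

theorem TUB_offDiag {n : ℕ} (Z : Finset (Fin n)) (h : Z.card ≤ 2) : Z.offDiag.card ≤ 2 := by
  rw [Finset.offDiag_card]
  interval_cases Z.card <;> simp

/-- the pairs of points in general form: `g` is the half of the tuple that is determined -/
theorem TUB_fib1 (hCTR : CTR_stmt) (hTUG : TUG_stmt) (n : ℕ) (B : FS n)
    (P : Finset (Fin n × Fin n × Fin n)) (hB : G8 B) (hC : Cl B P) (a b : Fin n)
    (Q : Finset ((Fin 3 → Fin n) × (Fin 3 → Fin n)))
    (hQ : ∀ t ∈ Q, t ∈ TU P ∧ t.1 2 = a ∧ t.2 2 = b) (R : Finset (Fin n × Fin n))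
    (hR : ∀ t ∈ Q, (t.1 0, t.1 1) ∈ R) : Q.card ≤ 2 * R.card := by
  classical
  refine Finset.card_le_mul_card_image_of_maps_to (f := fun t => (t.1 0, t.1 1)) hR 2 ?_
  intro r _
  rcases Finset.eq_empty_or_nonempty (Q.filter (fun t => (t.1 0, t.1 1) = r)) with h | ⟨t0, ht0⟩
  · rw [h]; simp
  obtain ⟨ht0Q, ht0r⟩ := Finset.mem_filter.1 ht0
  have hinj : Function.Injective t0.1 := (Finset.mem_filter.1 (hQ t0 ht0Q).1).2.1
  set Z : Finset (Fin n) := Finset.univ.filter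
    (fun y => ∀ i j, i ≠ j → y ∈ Phi P (t0.1 i) (t0.1 j)) with hZ
  have hZ2 : Z.card ≤ 2 := hCTR n B P hB hC t0.1 Z hinj fun y hy => (Finset.mem_filter.1 hy).2
  have key : ∀ t ∈ Q.filter (fun t => (t.1 0, t.1 1) = r), t.1 = t0.1 := by
    intro t ht
    obtain ⟨htQ, htr⟩ := Finset.mem_filter.1 ht
    have e := htr.trans ht0r.symm
    funext i
    fin_cases i
    · exact (Prod.ext_iff.1 e).1
    · exact (Prod.ext_iff.1 e).2
    · exact (hQ t htQ).2.1.trans (hQ t0 ht0Q).2.1.symm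
  refine le_trans ?_ (TUB_offDiag Z hZ2)
  refine Finset.card_le_card_of_injOn (fun t => (t.2 0, t.2 1)) ?_ ?_
  · intro t ht
    have htQ := (Finset.mem_filter.1 ht).1
    have hx := key t ht
    have hTU := (hQ t htQ).1
    obtain ⟨g1, -, -⟩ := hTUG n B P hB hC t hTU
    have hinj2 : Function.Injective t.2 := (Finset.mem_filter.1 hTU).2.2.1
    have hmem : ∀ i : Fin 3, i ≠ 2 → t.2 i ∈ Z := by
      intro i hi
      refine Finset.mem_filter.2 ⟨Finset.mem_univ _, ?_⟩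
      intro j k hjk
      rw [← hx]
      exact g1 i j k hjk (fun h => hi (Prod.ext_iff.1 h).1) (fun h => hi (Prod.ext_iff.1 h).1)
    rw [Finset.mem_coe, Finset.mem_offDiag]
    exact ⟨hmem 0 (by decide), hmem 1 (by decide), fun h => absurd (hinj2 h) (by decide)⟩
  · intro t ht t' ht' h
    have hx := key t ht
    have hx' := key t' ht'
    have htQ := (Finset.mem_filter.1 ht).1
    have htQ' := (Finset.mem_filter.1 ht').1
    have h' := Prod.ext_iff.1 h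
    refine Prod.ext (hx.trans hx'.symm) ?_
    funext i
    fin_cases i
    · exact h'.1
    · exact h'.2
    · exact (hQ t htQ).2.2.trans (hQ t' htQ').2.2.symm

theorem TUB_fib2 (hCTR : CTR_stmt) (hTUG : TUG_stmt) (n : ℕ) (B : FS n)
    (P : Finset (Fin n × Fin n × Fin n)) (hB : G8 B) (hC : Cl B P) (a b : Fin n)
    (Q : Finset ((Fin 3 → Fin n) × (Fin 3 → Fin n)))
    (hQ : ∀ t ∈ Q, t ∈ TU P ∧ t.1 2 = a ∧ t.2 2 = b) (R : Finset (Fin n × Fin n))
    (hR : ∀ t ∈ Q, (t.2 0, t.2 1) ∈ R) : Q.card ≤ 2 * R.card := by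
  classical
  refine Finset.card_le_mul_card_image_of_maps_to (f := fun t => (t.2 0, t.2 1)) hR 2 ?_
  intro r _
  rcases Finset.eq_empty_or_nonempty (Q.filter (fun t => (t.2 0, t.2 1) = r)) with h | ⟨t0, ht0⟩
  · rw [h]; simp
  obtain ⟨ht0Q, ht0r⟩ := Finset.mem_filter.1 ht0
  have hinj : Function.Injective t0.2 := (Finset.mem_filter.1 (hQ t0 ht0Q).1).2.2.1
  set Z : Finset (Fin n) := Finset.univ.filter
    (fun y => ∀ i j, i ≠ j → y ∈ Phi P (t0.2 i) (t0.2 j)) with hZ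
  have hZ2 : Z.card ≤ 2 := hCTR n B P hB hC t0.2 Z hinj fun y hy => (Finset.mem_filter.1 hy).2
  have key : ∀ t ∈ Q.filter (fun t => (t.2 0, t.2 1) = r), t.2 = t0.2 := by
    intro t ht
    obtain ⟨htQ, htr⟩ := Finset.mem_filter.1 ht
    have e := htr.trans ht0r.symm
    funext i
    fin_cases i
    · exact (Prod.ext_iff.1 e).1
    · exact (Prod.ext_iff.1 e).2
    · exact (hQ t htQ).2.2.trans (hQ t0 ht0Q).2.2.symm
  refine le_trans ?_ (TUB_offDiag Z hZ2)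
  refine Finset.card_le_card_of_injOn (fun t => (t.1 0, t.1 1)) ?_ ?_
  · intro t ht
    have htQ := (Finset.mem_filter.1 ht).1
    have hx := key t ht
    have hTU := (hQ t htQ).1
    obtain ⟨-, g2, -⟩ := hTUG n B P hB hC t hTU
    have hinj1 : Function.Injective t.1 := (Finset.mem_filter.1 hTU).2.1
    have hmem : ∀ i : Fin 3, i ≠ 2 → t.1 i ∈ Z := by
      intro i hi
      refine Finset.mem_filter.2 ⟨Finset.mem_univ _, ?_⟩
      intro j k hjk
      rw [← hx]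
      exact g2 i j k hjk (fun h => hi (Prod.ext_iff.1 h).2) (fun h => hi (Prod.ext_iff.1 h).2)
    rw [Finset.mem_coe, Finset.mem_offDiag]
    exact ⟨hmem 0 (by decide), hmem 1 (by decide), fun h => absurd (hinj1 h) (by decide)⟩
  · intro t ht t' ht' h
    have hx := key t ht
    have hx' := key t' ht'
    have htQ := (Finset.mem_filter.1 ht).1
    have htQ' := (Finset.mem_filter.1 ht').1
    have h' := Prod.ext_iff.1 h
    refine Prod.ext ?_ (hx.trans hx'.symm)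
    funext i
    fin_cases i
    · exact h'.1
    · exact h'.2
    · exact (hQ t htQ).2.1.trans (hQ t' htQ').2.1.symm

theorem TUB (hGEO : GEO_stmt) (hCTR : CTR_stmt) (hTUG : TUG_stmt) : TUB_stmt := by
  classical
  intro n D B P hD hB hC hP hL a b v Q hQ
  obtain ⟨-, g2, -⟩ := hGEO n B P hB hC
  have hflag : ∀ x l y, (x, l, y) ∈ P → (x, l) ∈ B ∧ (y, l) ∈ B := fun x l y h =>
    ⟨hC.fx x l y h, hC.fx y l x (hC.sy x l y h)⟩
  -- neighbours
  have hNx : ∀ t ∈ Q, t.1 0 ∈ TUB_N B b ∧ t.1 1 ∈ TUB_N B b := by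
    intro t ht
    obtain ⟨h1, -, h3, -⟩ := hQ t ht
    obtain ⟨-, -, -, -, ⟨l, hl⟩, ⟨m, hm⟩⟩ := g2 _ _ _ ((Finset.mem_filter.1 h1).2.2.2.2 2)
    rw [h3] at hl hm
    exact ⟨TUB_mem_N (hflag _ _ _ hl).1 (hflag _ _ _ hl).2,
      TUB_mem_N (hflag _ _ _ hm).1 (hflag _ _ _ hm).2⟩
  have hNy : ∀ t ∈ Q, t.2 0 ∈ TUB_N B a ∧ t.2 1 ∈ TUB_N B a := by
    intro t ht
    obtain ⟨h1, h3, -, -⟩ := hQ t ht
    obtain ⟨-, -, -, -, ⟨l, hl⟩, ⟨m, hm⟩⟩ := g2 _ _ _ ((Finset.mem_filter.1 h1).2.2.2.1 2)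
    rw [h3] at hl hm
    exact ⟨TUB_mem_N (hflag _ _ _ hl).1 (hflag _ _ _ hl).2,
      TUB_mem_N (hflag _ _ _ hm).1 (hflag _ _ _ hm).2⟩
  -- positions
  have hpos : ∀ t ∈ Q, t.1 0 ∈ TUB_pts B v ∨ t.1 1 ∈ TUB_pts B v ∨ t.2 0 ∈ TUB_pts B v ∨
      t.2 1 ∈ TUB_pts B v := by
    intro t ht
    obtain ⟨-, -, -, s, hs, hv⟩ := hQ t ht
    unfold inn at hv
    rcases Finset.mem_union.1 hv with hv | hv
    · simp only [Finset.mem_insert, Finset.mem_singleton] at hv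
      rcases hv with rfl | rfl | rfl | rfl
      · exact Or.inr (Or.inr (Or.inl (Finset.mem_singleton_self _)))
      · exact Or.inr (Or.inr (Or.inr (Finset.mem_singleton_self _)))
      · exact Or.inl (Finset.mem_singleton_self _)
      · exact Or.inr (Or.inl (Finset.mem_singleton_self _))
    · obtain ⟨p, -, rfl⟩ := Finset.mem_image.1 hv
      have h1 := hs.fu p
      have h2 := hs.fw p
      have m1 : t.2 p.1.1 ∈ TUB_pts B (Sum.inr (s p)) :=
        Finset.mem_filter.2 ⟨Finset.mem_univ _, h1⟩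
      have m2 : t.1 p.1.2 ∈ TUB_pts B (Sum.inr (s p)) :=
        Finset.mem_filter.2 ⟨Finset.mem_univ _, h2⟩
      obtain ⟨⟨i, j⟩, hp⟩ := p
      have hj : j = 0 ∨ j = 1 ∨ j = 2 := by fin_cases j <;> simp
      rcases hj with rfl | rfl | rfl
      · exact Or.inl m2
      · exact Or.inr (Or.inl m2)
      · have hi : i = 0 ∨ i = 1 ∨ i = 2 := by fin_cases i <;> simp
        rcases hi with rfl | rfl | rfl
        · exact Or.inr (Or.inr (Or.inl m1))
        · exact Or.inr (Or.inr (Or.inr m1))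
        · exact absurd rfl hp
  have hpc := TUB_pts_card B D hD hL v
  have hNa := TUB_N_card B D hD hP hL a
  have hNb := TUB_N_card B D hD hP hL b
  have hQ' : ∀ Q' ⊆ Q, ∀ t ∈ Q', t ∈ TU P ∧ t.1 2 = a ∧ t.2 2 = b := fun Q' h t ht =>
    ⟨(hQ t (h ht)).1, (hQ t (h ht)).2.1, (hQ t (h ht)).2.2.1⟩
  have prodbound : ∀ (X Y : Finset (Fin n)) (m : ℕ), (X.card : ℝ) ≤ D → (Y.card : ℝ) ≤ D ^ 2 →
      m ≤ 2 * (X ×ˢ Y).card → (m : ℝ) ≤ 2 * D ^ 3 := by
    intro X Y m hX hY hm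
    have h1 : (m : ℝ) ≤ 2 * ((X.card : ℝ) * (Y.card : ℝ)) := by
      rw [Finset.card_product] at hm
      exact_mod_cast hm
    have h2 : (X.card : ℝ) * (Y.card : ℝ) ≤ D * D ^ 2 := by
      have : (0 : ℝ) ≤ D := by linarith
      exact mul_le_mul hX hY (Nat.cast_nonneg _) this
    calc (m : ℝ) ≤ 2 * ((X.card : ℝ) * (Y.card : ℝ)) := h1
      _ ≤ 2 * (D * D ^ 2) := by linarith
      _ = 2 * D ^ 3 := by ring
  have prodbound' : ∀ (X Y : Finset (Fin n)) (m : ℕ), (X.card : ℝ) ≤ D → (Y.card : ℝ) ≤ D ^ 2 →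
      m ≤ 2 * (Y ×ˢ X).card → (m : ℝ) ≤ 2 * D ^ 3 := by
    intro X Y m hX hY hm
    refine prodbound X Y m hX hY ?_
    rw [Finset.card_product] at hm ⊢
    rw [mul_comm X.card]
    exact hm
  set Q1 := Q.filter (fun t => t.1 0 ∈ TUB_pts B v) with hQ1
  set Q2 := Q.filter (fun t => t.1 1 ∈ TUB_pts B v) with hQ2
  set Q3 := Q.filter (fun t => t.2 0 ∈ TUB_pts B v) with hQ3
  set Q4 := Q.filter (fun t => t.2 1 ∈ TUB_pts B v) with hQ4
  have c1 : (Q1.card : ℝ) ≤ 2 * D ^ 3 := by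
    refine prodbound (TUB_pts B v) (TUB_N B b) _ hpc hNb ?_
    refine TUB_fib1 hCTR hTUG n B P hB hC a b Q1 (hQ' Q1 (Finset.filter_subset _ _)) _ ?_
    intro t ht
    obtain ⟨h1, h2⟩ := Finset.mem_filter.1 ht
    exact Finset.mem_product.2 ⟨h2, (hNx t h1).2⟩
  have c2 : (Q2.card : ℝ) ≤ 2 * D ^ 3 := by
    refine prodbound' (TUB_pts B v) (TUB_N B b) _ hpc hNb ?_
    refine TUB_fib1 hCTR hTUG n B P hB hC a b Q2 (hQ' Q2 (Finset.filter_subset _ _)) _ ?_
    intro t ht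
    obtain ⟨h1, h2⟩ := Finset.mem_filter.1 ht
    exact Finset.mem_product.2 ⟨(hNx t h1).1, h2⟩
  have c3 : (Q3.card : ℝ) ≤ 2 * D ^ 3 := by
    refine prodbound (TUB_pts B v) (TUB_N B a) _ hpc hNa ?_
    refine TUB_fib2 hCTR hTUG n B P hB hC a b Q3 (hQ' Q3 (Finset.filter_subset _ _)) _ ?_
    intro t ht
    obtain ⟨h1, h2⟩ := Finset.mem_filter.1 ht
    exact Finset.mem_product.2 ⟨h2, (hNy t h1).2⟩
  have c4 : (Q4.card : ℝ) ≤ 2 * D ^ 3 := by
    refine prodbound' (TUB_pts B v) (TUB_N B a) _ hpc hNa ?_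
    refine TUB_fib2 hCTR hTUG n B P hB hC a b Q4 (hQ' Q4 (Finset.filter_subset _ _)) _ ?_
    intro t ht
    obtain ⟨h1, h2⟩ := Finset.mem_filter.1 ht
    exact Finset.mem_product.2 ⟨(hNy t h1).1, h2⟩
  have hsub : Q ⊆ ((Q1 ∪ Q2) ∪ Q3) ∪ Q4 := by
    intro t ht
    simp only [Finset.mem_union, hQ1, hQ2, hQ3, hQ4, Finset.mem_filter]
    rcases hpos t ht with h | h | h | h
    · exact Or.inl (Or.inl (Or.inl ⟨ht, h⟩))
    · exact Or.inl (Or.inl (Or.inr ⟨ht, h⟩))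
    · exact Or.inl (Or.inr ⟨ht, h⟩)
    · exact Or.inr ⟨ht, h⟩
  have hcard : Q.card ≤ Q1.card + Q2.card + Q3.card + Q4.card := by
    refine (Finset.card_le_card hsub).trans ?_
    refine (Finset.card_union_le _ _).trans ?_
    refine Nat.add_le_add_right ?_ _
    refine (Finset.card_union_le _ _).trans ?_
    refine Nat.add_le_add_right ?_ _
    exact Finset.card_union_le _ _
  have hcard' : (Q.card : ℝ) ≤ Q1.card + Q2.card + Q3.card + Q4.card := by exact_mod_cast hcard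
  have : 0 ≤ D ^ 3 := by positivity
  linarith

end Pool.Agent.XT
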