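import Pool.Agent.helper3.XT.Spec

/-!
# Row xt:TUC of MP_51d945_co
-/

set_option autoImplicit false

namespace Pool.Agent.XT

open Finset SimpleGraph

/-- the number of common neighbours -/
noncomputable def TUC_f {n : ℕ} (P : Finset (Fin n × Fin n × Fin n)) (e : Fin n × Fin n) : ℝ :=
  ((Phi P e.1 e.2).card : ℝ)

/-- pairs of pairs -/
noncomputable def TUC_CY {n : ℕ} (P : Finset (Fin n × Fin n × Fin n)) (S : Finset (Fin n × Fin n)) :
    Finset (Σ _ : Fin n × Fin n, Fin n × Fin n) :=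
  S.sigma (fun e => (Phi P e.1 e.2).offDiag)

theorem TUC_card_offDiag {α : Type} [DecidableEq α] (s : Finset α) :
    (s.offDiag.card : ℝ) = (s.card : ℝ) ^ 2 - s.card := by
  rw [Finset.offDiag_card, Nat.cast_sub (Nat.le_mul_self _)]
  push_cast
  ring

theorem TUC_card_CY {n : ℕ} (P : Finset (Fin n × Fin n × Fin n)) (S : Finset (Fin n × Fin n)) :
    ((TUC_CY P S).card : ℝ) = ∑ e ∈ S, (TUC_f P e ^ 2 - TUC_f P e) := by
  unfold TUC_CY
  rw [Finset.card_sigma]
  push_cast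
  exact Finset.sum_congr rfl fun e _ => TUC_card_offDiag _

theorem TUC_mem {n : ℕ} (P : Finset (Fin n × Fin n × Fin n)) (S : Finset (Fin n × Fin n))
    (c : Σ _ : Fin n × Fin n, Fin n × Fin n) :
    c ∈ TUC_CY P S ↔ c.1 ∈ S ∧ c.2.1 ∈ Phi P c.1.1 c.1.2 ∧ c.2.2 ∈ Phi P c.1.1 c.1.2 ∧
      c.2.1 ≠ c.2.2 := by
  unfold TUC_CY
  rw [Finset.mem_sigma, Finset.mem_offDiag]

theorem TUC (hGEO : GEO_stmt) : TUC_stmt := by
  classical
  intro n B P h S1 hn hB hC hh hS1
  obtain ⟨g1, g2, g3⟩ := hGEO n B P hB hC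
  have hn' : (0 : ℝ) < n := by exact_mod_cast hn
  have hS1' : S1 = ∑ e, TUC_f P e := hS1
  set CY := TUC_CY P Finset.univ with hCY
  have hf0 : ∀ e, 0 ≤ TUC_f P e := fun e => Nat.cast_nonneg _
  -- symmetry
  have hsym : ∀ c ∈ CY, (⟨c.2, c.1⟩ : Σ _ : Fin n × Fin n, Fin n × Fin n) ∈ CY := by
    intro c hc
    obtain ⟨-, h1, h2, h3⟩ := (TUC_mem P _ c).1 hc
    refine (TUC_mem P _ _).2 ⟨Finset.mem_univ _, ?_, ?_, ?_⟩
    · exact g3 _ _ _ _ h3 h1 h2
    · exact g3 _ _ _ _ h3 (g2 _ _ _ h1).1 (g2 _ _ _ h2).1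
    · exact (g2 _ _ _ h1).2.1
  have hcs : S1 ^ 2 / n ^ 2 - S1 ≤ (CY.card : ℝ) := by
    rw [TUC_card_CY, Finset.sum_sub_distrib, ← hS1']
    have h1 : (∑ e : Fin n × Fin n, TUC_f P e) ^ 2 ≤
        ((Finset.univ : Finset (Fin n × Fin n)).card : ℝ) * ∑ e : Fin n × Fin n, TUC_f P e ^ 2 :=
      sq_sum_le_card_mul_sum_sq
    rw [← hS1', Finset.card_univ, Fintype.card_prod, Fintype.card_fin] at h1
    have h2 : S1 ^ 2 / n ^ 2 ≤ ∑ e : Fin n × Fin n, TUC_f P e ^ 2 := by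
      rw [div_le_iff₀ (by positivity)]
      calc S1 ^ 2 ≤ ((n * n : ℕ) : ℝ) * ∑ e : Fin n × Fin n, TUC_f P e ^ 2 := h1
        _ = _ := by push_cast; ring
    linarith
  set Bad1 := CY.filter (fun c => TUC_f P c.1 < h) with hBad1
  set Bad2 := CY.filter (fun c => TUC_f P c.2 < h) with hBad2
  set Gd := CY.filter (fun c => h ≤ TUC_f P c.1 ∧ h ≤ TUC_f P c.2) with hGd
  have hb1 : (Bad1.card : ℝ) ≤ n ^ 2 * h ^ 2 := by
    set S := (Finset.univ : Finset (Fin n × Fin n)).filter (fun e => TUC_f P e < h) with hS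
    have hsub : Bad1 ⊆ TUC_CY P S := by
      intro c hc
      obtain ⟨h1, h2⟩ := Finset.mem_filter.1 hc
      exact (TUC_mem P S c).2 ⟨Finset.mem_filter.2 ⟨Finset.mem_univ _, h2⟩,
        ((TUC_mem P _ c).1 h1).2⟩
    have h1 : (Bad1.card : ℝ) ≤ ((TUC_CY P S).card : ℝ) := by
      exact_mod_cast Finset.card_le_card hsub
    calc (Bad1.card : ℝ) ≤ ((TUC_CY P S).card : ℝ) := h1
      _ = ∑ e ∈ S, (TUC_f P e ^ 2 - TUC_f P e) := TUC_card_CY P S
      _ ≤ ∑ e ∈ S, h ^ 2 := by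
          refine Finset.sum_le_sum fun e he => ?_
          have h2 := (Finset.mem_filter.1 he).2
          have h3 := hf0 e
          nlinarith
      _ = (S.card : ℝ) * h ^ 2 := by rw [Finset.sum_const, nsmul_eq_mul]
      _ ≤ n ^ 2 * h ^ 2 := by
          have h4 : S.card ≤ n ^ 2 := by
            refine (Finset.card_le_univ _).trans ?_
            rw [Fintype.card_prod, Fintype.card_fin, pow_two]
          have h5 : (S.card : ℝ) ≤ (n : ℝ) ^ 2 := by exact_mod_cast h4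
          gcongr
  have hb2 : Bad2.card ≤ Bad1.card := by
    refine Finset.card_le_card_of_injOn
      (fun c => (⟨c.2, c.1⟩ : Σ _ : Fin n × Fin n, Fin n × Fin n)) ?_ ?_
    · intro c hc
      obtain ⟨h1, h2⟩ := Finset.mem_filter.1 hc
      exact Finset.mem_coe.2 (Finset.mem_filter.2 ⟨hsym c h1, h2⟩)
    · rintro ⟨a, b⟩ _ ⟨a', b'⟩ _ hab
      simp only [Sigma.mk.injEq, heq_eq_eq] at hab
      obtain ⟨rfl, rfl⟩ := hab
      rfl
  have hcover : CY ⊆ Gd ∪ (Bad1 ∪ Bad2) := by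
    intro c hc
    by_cases h1 : TUC_f P c.1 < h
    · exact Finset.mem_union_right _ (Finset.mem_union_left _ (Finset.mem_filter.2 ⟨hc, h1⟩))
    · by_cases h2 : TUC_f P c.2 < h
      · exact Finset.mem_union_right _ (Finset.mem_union_right _ (Finset.mem_filter.2 ⟨hc, h2⟩))
      · exact Finset.mem_union_left _ (Finset.mem_filter.2 ⟨hc, not_lt.1 h1, not_lt.1 h2⟩)
  have hGc : S1 ^ 2 / n ^ 2 - S1 - 2 * n ^ 2 * h ^ 2 ≤ (Gd.card : ℝ) := by
    have h1 : CY.card ≤ Gd.card + (Bad1.card + Bad2.card) :=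
      (Finset.card_le_card hcover).trans ((Finset.card_union_le _ _).trans
        (Nat.add_le_add_left (Finset.card_union_le _ _) _))
    have h2 : (CY.card : ℝ) ≤ Gd.card + (Bad1.card + Bad2.card) := by exact_mod_cast h1
    have h3 : (Bad2.card : ℝ) ≤ Bad1.card := by exact_mod_cast hb2
    linarith
  -- fibres
  have hTU : ((TU P).card : ℝ) = ∑ c : (Σ _ : Fin n × Fin n, Fin n × Fin n),
      (((TU P).filter (fun t => (⟨(t.2 0, t.2 1), (t.1 0, t.1 1)⟩ :
        Σ _ : Fin n × Fin n, Fin n × Fin n) = c)).card : ℝ) := by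
    have h1 := Finset.card_eq_sum_card_fiberwise (s := TU P)
      (t := (Finset.univ : Finset (Σ _ : Fin n × Fin n, Fin n × Fin n)))
      (f := fun t => (⟨(t.2 0, t.2 1), (t.1 0, t.1 1)⟩ : Σ _ : Fin n × Fin n, Fin n × Fin n))
      (fun _ _ => Finset.mem_coe.2 (Finset.mem_univ _))
    rw [h1]
    push_cast
    rfl
  have hfib : ∀ c ∈ Gd, (h - 2) ^ 2 ≤ (((TU P).filter (fun t => (⟨(t.2 0, t.2 1), (t.1 0, t.1 1)⟩ :
        Σ _ : Fin n × Fin n, Fin n × Fin n) = c)).card : ℝ) := by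
    intro c hc
    obtain ⟨hcCY, hc1, hc2⟩ := Finset.mem_filter.1 hc
    obtain ⟨-, m1, m2, m3⟩ := (TUC_mem P _ c).1 hcCY
    obtain ⟨-, k1, k2, k3⟩ := (TUC_mem P _ _).1 (hsym c hcCY)
    obtain ⟨⟨y0, y1⟩, ⟨x0, x1⟩⟩ := c
    simp only at m1 m2 m3 k1 k2 k3
    set X := ((Phi P y0 y1).erase x0).erase x1 with hX
    set Y := ((Phi P x0 x1).erase y0).erase y1 with hY
    have cX : h - 2 ≤ (X.card : ℝ) := by
      have h1 : X.card + 2 = (Phi P y0 y1).card := by
        rw [hX, Finset.card_erase_of_mem (Finset.mem_erase.2 ⟨m3.symm, m2⟩),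
          Finset.card_erase_of_mem m1]
        have h2 : 1 < (Phi P y0 y1).card := Finset.one_lt_card.2 ⟨x0, m1, x1, m2, m3⟩
        omega
      have h2 : h ≤ ((Phi P y0 y1).card : ℝ) := hc1
      rw [← h1] at h2
      push_cast at h2
      linarith
    have cY : h - 2 ≤ (Y.card : ℝ) := by
      have h1 : Y.card + 2 = (Phi P x0 x1).card := by
        rw [hY, Finset.card_erase_of_mem (Finset.mem_erase.2 ⟨k3.symm, k2⟩),
          Finset.card_erase_of_mem k1]
        have h2 : 1 < (Phi P x0 x1).card := Finset.one_lt_card.2 ⟨y0, k1, y1, k2, k3⟩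
        omega
      have h2 : h ≤ ((Phi P x0 x1).card : ℝ) := hc2
      rw [← h1] at h2
      push_cast at h2
      linarith
    have hcard : (X ×ˢ Y).card ≤ ((TU P).filter (fun t => (⟨(t.2 0, t.2 1), (t.1 0, t.1 1)⟩ :
        Σ _ : Fin n × Fin n, Fin n × Fin n) = ⟨(y0, y1), (x0, x1)⟩)).card := by
      refine Finset.card_le_card_of_injOn
        (fun z => ((![x0, x1, z.1] : Fin 3 → Fin n), (![y0, y1, z.2] : Fin 3 → Fin n))) ?_ ?_
      · intro z hz
        obtain ⟨hz1, hz2⟩ := Finset.mem_product.1 (Finset.mem_coe.1 hz)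
        obtain ⟨a1, a2⟩ := Finset.mem_erase.1 hz1
        obtain ⟨a2, a3⟩ := Finset.mem_erase.1 a2
        obtain ⟨b1, b2⟩ := Finset.mem_erase.1 hz2
        obtain ⟨b2, b3⟩ := Finset.mem_erase.1 b2
        refine Finset.mem_coe.2 (Finset.mem_filter.2 ⟨Finset.mem_filter.2
          ⟨Finset.mem_univ _, ?_, ?_, ?_, ?_⟩, rfl⟩)
        · intro i j hij
          fin_cases i <;> fin_cases j <;> simp at hij ⊢
          · exact m3 hij
          · exact a2 hij.symm
          · exact m3 hij.symm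
          · exact a1 hij.symm
          · exact a2 hij
          · exact a1 hij
        · intro i j hij
          fin_cases i <;> fin_cases j <;> simp at hij ⊢
          · exact k3 hij
          · exact b2 hij.symm
          · exact k3 hij.symm
          · exact b1 hij.symm
          · exact b2 hij
          · exact b1 hij
        · intro j
          fin_cases j
          · exact m1
          · exact m2
          · exact a3
        · intro j
          fin_cases j
          · exact k1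
          · exact k2
          · exact b3
      · rintro ⟨z1, z2⟩ _ ⟨z1', z2'⟩ _ hz
        have h1 := congrFun (Prod.ext_iff.1 hz).1 2
        have h2 := congrFun (Prod.ext_iff.1 hz).2 2
        exact Prod.ext h1 h2
    rw [Finset.card_product] at hcard
    have hcard' : (X.card : ℝ) * (Y.card : ℝ) ≤
        (((TU P).filter (fun t => (⟨(t.2 0, t.2 1), (t.1 0, t.1 1)⟩ :
        Σ _ : Fin n × Fin n, Fin n × Fin n) = ⟨(y0, y1), (x0, x1)⟩)).card : ℝ) := by
      exact_mod_cast hcard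
    refine le_trans ?_ hcard'
    rw [pow_two]
    exact mul_le_mul cX cY (by linarith) (Nat.cast_nonneg _)
  rw [hTU]
  calc (S1 ^ 2 / n ^ 2 - S1 - 2 * n ^ 2 * h ^ 2) * (h - 2) ^ 2
      ≤ (Gd.card : ℝ) * (h - 2) ^ 2 := mul_le_mul_of_nonneg_right hGc (sq_nonneg _)
    _ = ∑ c ∈ Gd, (h - 2) ^ 2 := by rw [Finset.sum_const, nsmul_eq_mul]
    _ ≤ ∑ c ∈ Gd, (((TU P).filter (fun t => (⟨(t.2 0, t.2 1), (t.1 0, t.1 1)⟩ :
        Σ _ : Fin n × Fin n, Fin n × Fin n) = c)).card : ℝ) := Finset.sum_le_sum hfib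
    _ ≤ _ := Finset.sum_le_sum_of_subset_of_nonneg (Finset.subset_univ _)
        (fun _ _ _ => Nat.cast_nonneg _)

end Pool.Agent.XT
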